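import Pool.Agent.Helper64.CT.Stmts

/-! MP_866009_co: module SN, a separation system gives a circle model. -/

set_option autoImplicit false

namespace Pool.Agent.Helper64.CT

open Pool.Agent.Helper64.HG (Ovl Model Circ IC HellyCircle)

/-- a vertex whose deletion keeps the induced subgraph connected -/
theorem sn_del {V : Type} [Finite V] (G : SimpleGraph V) (T : Set V) (hT : T.Nonempty)
    (hc : (G.induce T).Preconnected) : ∃ z ∈ T, (G.induce (T \ {z})).Preconnected := by
  have : Nonempty T := hT.to_subtype
  obtain ⟨v, hv⟩ := (SimpleGraph.Connected.mk hc).exists_preconnected_induce_compl_singleton_of_finite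
  refine ⟨v.1, v.2, ?_⟩
  have hmem : ∀ w : (({v}ᶜ : Set T)), w.1.1 ∈ T \ {v.1} := by
    intro w
    refine ⟨w.1.2, fun h => w.2 ?_⟩
    exact Subtype.ext h
  refine hv.map (⟨fun w => ⟨w.1.1, hmem w⟩, ?_⟩ :
    ((G.induce T).induce ({v}ᶜ : Set T)) →g (G.induce (T \ {v.1}))) ?_
  · intro a b hab
    simpa using hab
  · rintro ⟨x, hx⟩
    exact ⟨⟨⟨x, hx.1⟩, fun h => hx.2 (congrArg Subtype.val h)⟩, rfl⟩

/-- a vertex of a connected induced subgraph with at least two vertices has a neighbour -/
theorem sn_nb {V : Type} (G : SimpleGraph V) (T : Set V) (hc : (G.induce T).Preconnected)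
    (z w : V) (hz : z ∈ T) (hw : w ∈ T) (hzw : z ≠ w) : ∃ p ∈ T, G.Adj z p := by
  obtain ⟨q⟩ := hc ⟨z, hz⟩ ⟨w, hw⟩
  cases q with
  | nil => exact absurd rfl hzw
  | @cons _ b _ h p => exact ⟨b.1, b.2, by simpa using h⟩

theorem st_SN (hSTEP : ST_STEP) : ST_SN := by
  intro V _ G s hG hTF hS
  have key : ∀ n : ℕ, ∀ T : Set V, T.ncard = n → (G.induce T).Preconnected →
      ∃ (l r : V → ℝ) (ε : V → Bool), MOn G T l r ∧ Rlz G T l r s ε := by
    intro n
    induction n using Nat.strong_induction_on with
    | _ n ih =>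
      intro T hTn hc
      by_cases hsub : T.Subsingleton
      · refine ⟨fun _ => 0, fun _ => 1, fun _ => true, ?_, ?_⟩
        · refine ⟨fun _ _ => zero_lt_one, fun u hu v hv _ => hsub hu hv,
            fun u hu v hv _ => hsub hu hv, fun _ _ _ _ => zero_ne_one, ?_⟩
          intro u hu v hv
          have huv : u = v := hsub hu hv
          subst huv
          constructor
          · intro h; exact absurd h (G.loopless.irrefl u)
          · intro h
            rcases h with h | h
            · exact absurd h.1 (lt_irrefl _)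
            · exact absurd h.1 (lt_irrefl _)
        · intro y hy x hx hxy
          exact absurd (hsub hx hy) hxy.1
      · have hnt : T.Nontrivial := Set.not_subsingleton_iff.1 hsub
        obtain ⟨z, hz, hcz⟩ := sn_del G T hnt.nonempty hc
        obtain ⟨w, hw, hwz⟩ := hnt.exists_ne z
        obtain ⟨p, hp, hzp⟩ := sn_nb G T hc z w hz hw hwz.symm
        have hlt : (T \ {z}).ncard < n := by
          rw [← hTn]
          exact Set.ncard_sdiff_singleton_lt_of_mem hz
        obtain ⟨l, r, ε, hM, hR⟩ := ih _ hlt (T \ {z}) rfl hcz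
        obtain ⟨l', r', ε', hM', hR'⟩ := hSTEP V G s (T \ {z}) z l r ε hTF hS
          (fun h => h.2 rfl) hcz ⟨p, ⟨hp, fun h => G.loopless.irrefl z (by
            have h' : p = z := h
            rw [h'] at hzp; exact hzp)⟩, hzp⟩ hM hR
        have hins : insert z (T \ {z}) = T := Set.insert_sdiff_self_of_mem hz
        rw [hins] at hM' hR'
        exact ⟨l', r', ε', hM', hR'⟩
  have huniv : (G.induce (Set.univ : Set V)).Preconnected := by
    refine hG.map (⟨fun v => ⟨v, trivial⟩, ?_⟩ : G →g (G.induce (Set.univ : Set V))) ?_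
    · intro a b hab
      simpa using hab
    · rintro ⟨x, hx⟩
      exact ⟨x, rfl⟩
  obtain ⟨l, r, ε, hM, _⟩ := key _ Set.univ rfl huniv
  refine ⟨l, r, ⟨fun v => hM.lt v trivial, fun u v h => hM.injl u trivial v trivial h,
    fun u v h => hM.injr u trivial v trivial h, fun u v => hM.ne u trivial v trivial,
    fun u v => hM.adj u trivial v trivial⟩⟩

end Pool.Agent.Helper64.CT
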