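import Pool.Agent.Helper64.CT.Stmts

/-! MP_866009_co: module TAU, a consistent orientation of the neighbourhood. -/

set_option autoImplicit false

namespace Pool.Agent.Helper64.CT

/-- the Boolean case check: `a = D e p`, `b = D p e`, `c = D e q`, `d = D q e`, `f = D p q`,
`g = D q p` -/
theorem tau_bool (a b c d f g : Bool) (h : Ex1 (a ≠ c) (f ≠ b) (g ≠ d)) :
    ((if a = true then !b else b) = f ↔ ¬ (if c = true then !d else d) = g) := by
  unfold Ex1 at h
  revert h
  cases a <;> cases b <;> cases c <;> cases d <;> cases f <;> cases g <;> simp

theorem tau_bool2 (c d : Bool) : (true = c ↔ ¬ (if c = true then !d else d) = d) := by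
  cases c <;> cases d <;> simp

theorem st_TAU : ST_TAU := by
  classical
  intro V N D h
  by_cases hN : N.Nonempty
  · obtain ⟨e, he⟩ := hN
    refine ⟨fun q => if q = e then true else if D e q = true then !(D q e) else D q e, ?_⟩
    intro p hp q hq hpq
    by_cases hpe : p = e
    · subst hpe
      have hqp : ¬ q = p := fun h' => hpq h'.symm
      simp only [if_true, if_neg hqp]
      exact tau_bool2 (D p q) (D q p)
    · by_cases hqe : q = e
      · subst hqe
        simp only [if_true, if_neg hpe]
        have h1 := tau_bool2 (D q p) (D p q)
        constructor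
        · intro h2 h3
          exact (h1.1 h3) h2
        · intro h2
          by_contra h3
          exact h2 (h1.2 h3)
      · simp only [if_neg hpe, if_neg hqe]
        refine tau_bool (D e p) (D p e) (D e q) (D q e) (D p q) (D q p) ?_
        have := h p hp q hq e he hpq hpe hqe
        exact this
  · refine ⟨fun _ => true, ?_⟩
    intro p hp
    exact absurd ⟨p, hp⟩ hN

end Pool.Agent.Helper64.CT
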